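import Mathlib
import Pool.Agent.Lib.helper17.AGolomb

set_option autoImplicit false

namespace Pool.Agent.Results.MP_ac9862_nt.Holds

open Finset H17AG

/-- The maximal multiplicity of a sequence. -/
noncomputable def M (a : ℕ → ℕ) : ℕ∞ := ⨆ n ≥ 1, N a n

/-- Golomb's sequence (indices from `1`). -/
def IsGolomb (G : ℕ → ℕ) : Prop :=
  (∀ n ≥ 1, 0 < G n) ∧ MonotoneOn G (Set.Ici 1) ∧ ∀ n ≥ 1, N G n = G n

theorem gol {G : ℕ → ℕ} (h : IsGolomb G) (k : ℕ) :
    ∀ p ≥ 1, (G p ≤ k ↔ p ≤ ∑ n ∈ range k, G (n + 1)) := by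
  obtain ⟨h1, h2, h3⟩ := h
  induction k with
  | zero => intro p hp; have := h1 p hp; simp; omega
  | succ k ih =>
    intro p hp
    rw [sum_range_succ]
    generalize ∑ n ∈ range k, G (n + 1) = s at *
    have e := h3 (k + 1) (by omega)
    have := ih p hp
    refine ⟨fun a => not_lt.mp fun b => ?_, fun a => not_lt.mp fun b => ?_⟩
    · have := (Set.encard_le_encard (s := Ioc s p) fun i c => by
        simp only [coe_Ioc, Set.mem_Ioc] at c
        have := ih i (by omega)
        have := h2 (show 1 ≤ i by omega) hp c.2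
        exact ⟨by omega, by omega⟩).trans e.le
      rw [Set.encard_coe_eq_coe_finsetCard, Nat.cast_le, Nat.card_Ioc] at this
      omega
    · have := e.ge.trans (Set.encard_le_encard (s := {i | 1 ≤ i ∧ G i = k + 1}) (t := Ioo s p)
        fun i ⟨c, d⟩ => by
          have := ih i c
          have := @h2 p hp i c
          simp only [coe_Ioo, Set.mem_Ioo]
          omega)
      rw [Set.encard_coe_eq_coe_finsetCard, Nat.cast_le, Nat.card_Ioo] at this
      omega

theorem result : (∀ r ≥ 2, ∃ a, AlmostGolomb r a) ∧ ∀ a : ℕ → ℕ → ℕ,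
    (∀ r ≥ 2, AlmostGolomb r (a r)) → ∀ G, IsGolomb G → ∀ k : ℕ, 4 ≤ k → ∃ j j' : ℕ,
      IsLeast {r | 2 ≤ r ∧ (k : ℕ∞) ≤ M (a r)} j ∧
      IsLeast {r | 2 ≤ r ∧ ((k + 1 : ℕ) : ℕ∞) ≤ M (a r)} j' ∧
      j = ∑ n ∈ Icc 1 (k - 1), G n + 2 ∧ j' = j + G k := by
  refine ⟨fun r hr => ⟨_, ag hr⟩, fun a ha G hG k hk => ?_⟩
  have l : ∀ p, p ≤ ∑ n ∈ range p, G (n + 1) := fun p => by
    simpa using card_nsmul_le_sum (range p) (fun n => G (n + 1)) (1 : ℕ) fun n _ => hG.1 (n + 1) (by omega)
  have G1 : G 1 = 1 := by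
    have := gol hG 1 1 le_rfl
    have := hG.1 1 le_rfl
    simp at *; omega
  have e : ∀ r ≥ 2, ∀ n ≥ 2, n + 1 ≤ r → g r (n + 1) = G n := fun r hr n => by
    induction n using Nat.strong_induction_on with
    | _ n ih =>
    intro h1 h2
    have s : ∀ m, m + 2 ≤ n → S r (g r) (m + 2) = ∑ n ∈ range (m + 1), G (n + 1) + 2 := by
      intro m hm
      induction m with
      | zero => simp [(base hr).2.1, G1]
      | succ m i =>
        have := sS r hr (g r) (m + 2)
        rw [Nat.sub_eq_zero_of_le (by omega), g, i (by omega), ih (m + 2) (by omega) (by omega)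
          (by omega)] at this
        rw [sum_range_succ _ (m + 1)]
        exact this.trans (by ring)
    have t : ∀ m, m + 3 ≤ n → (m + 3 ≤ g r (n + 1) ↔ m + 3 ≤ G n) := fun m hm => by
      have := gol hG (m + 1 + 1) n (by omega)
      rw [key hr _ _ (by omega), s (m + 1) hm]
      omega
    have := lt (r := r) (n + 1) (by omega)
    have := (gol hG n n (by omega)).mpr (l n)
    have := mono r (show 2 ≤ n + 1 by omega)
    have := gol hG 1 n (by omega)
    have := t (g r (n + 1) - 3)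
    have := t (G n - 3)
    simp only [g, range_one, sum_singleton, zero_add, G1] at *
    omega
  have m : ∀ k ≥ 3, IsLeast {r | 2 ≤ r ∧ ((k + 1 : ℕ) : ℕ∞) ≤ M (a r)}
      (∑ n ∈ range k, G (n + 1) + 2) := fun k hk => by
    have := l k
    have t : ∀ r ≥ 2, ((k + 1 : ℕ) : ℕ∞) ≤ M (a r) ↔ ∑ n ∈ range k, G (n + 1) + 2 ≤ r := by
      intro r hr
      rw [uniq hr (ha r hr), M]
      by_cases c : 5 ≤ r
      · have := gol hG k (r - 1) (by omega)
        have := e r hr (r - 1) (by omega) (by omega)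
        rw [Nat.sub_add_cancel (by omega)] at this
        rw [(Meq c).2, Nat.cast_le]
        omega
      · refine iff_of_false (fun f => ?_) (by omega)
        have := mono r (show r ≤ 3 + 1 by omega)
        have := (st r 3).2
        rw [g] at this
        have := Nat.cast_le.mp (f.trans (Nle hr 3 le_rfl (by omega)))
        omega
    exact ⟨⟨by omega, (t _ (by omega)).mpr le_rfl⟩, fun r h => (t r h.1).mp h.2⟩
  obtain ⟨k, rfl⟩ := Nat.exists_eq_add_of_le' (show 1 ≤ k by omega)
  refine ⟨_, _, m k (by omega), m (k + 1) (by omega), ?_, by rw [sum_range_succ]; ring⟩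
  rw [Nat.add_sub_cancel, ← Finset.Ico_add_one_right_eq_Icc, sum_Ico_eq_sum_range]
  simp [add_comm]

end Pool.Agent.Results.MP_ac9862_nt.Holds
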